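import Pool.Agent.H65.GF.DDS

/-!
# MP_cd65c5_nt, module D0N: the double discriminant with respect to the constant term is a nonzero
polynomial of the coefficient of `X`
-/

set_option autoImplicit false

namespace Pool.Agent.H65.GF

open Pool.Agent.H7.GF Polynomial

section closed

variable {L : Type} [Field L] [IsAlgClosed L] [CharZero L] {m : ℕ}

theorem Ez_ne_zero {k : Type} [Field k] [CharZero k] (a : Fin m → k) : Ez a ≠ 0 := by
  intro h
  have h1 : (Ez a).coeff m = (m : k) + 1 := by
    unfold Ez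
    rw [coeff_add, coeff_C_mul, coeff_X_pow, if_pos rfl, mul_one, finsetSum_coeff,
      Finset.sum_eq_zero, add_zero]
    intro i _
    rw [← C_mul, coeff_C_mul, coeff_X_pow, if_neg (by have := i.2; omega), mul_zero]
  rw [h, coeff_zero] at h1
  have h2 : (m : k) + 1 ≠ 0 := by exact_mod_cast Nat.succ_ne_zero m
  exact h2 h1.symm

theorem dd0_ne_zero_iff (hm : 2 ≤ m) (a : Fin m → L) :
    DD0 a ≠ 0 ↔ ((Ez a).roots.map fun c => -(Gz a).eval c).Nodup := by
  have hm1 : (m : L) + 1 ≠ 0 := by exact_mod_cast Nat.succ_ne_zero m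
  have hdeg := Ez_natDegree a hm1
  have hRdeg := (r0_closed m a hm1).1
  obtain ⟨n, rfl⟩ : ∃ n, m = n + 1 := ⟨m - 1, by omega⟩
  unfold DD0
  rw [Nat.add_sub_cancel, resultant_derivative_ne_zero _ n hRdeg, R0_eq]
  have h1 := separable_param_iff (Ez a) (Gz a) 1 (n + 1 + 1) (Ez_ne_zero a) (IsAlgClosed.splits _)
    (Gz_param_natDegree_le a) (fun c _ => by rw [eval_one]; exact one_ne_zero)
  rw [hdeg] at h1
  rw [h1]
  simp only [eval_one, div_one]

theorem Ez_coeff {k : Type} [Field k] (a : Fin m → k) (n : ℕ) :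
    (Ez a).coeff n = if h : n < m then ((n : k) + 1) * a ⟨n, h⟩ else if n = m then (m : k) + 1 else 0 := by
  unfold Ez
  rw [coeff_add, coeff_C_mul, coeff_X_pow, finsetSum_coeff]
  have h1 : ∀ i : Fin m, (C (((i : ℕ) : k) + 1) * C (a i) * X ^ (i : ℕ) : k[X]).coeff n =
      if n = (i : ℕ) then (((i : ℕ) : k) + 1) * a i else 0 := by
    intro i
    rw [← C_mul, coeff_C_mul, coeff_X_pow]
    split_ifs <;> simp
  simp_rw [h1]
  by_cases h : n < m
  · rw [dif_pos h, if_neg (by omega), mul_zero, zero_add, Finset.sum_eq_single ⟨n, h⟩]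
    · simp
    · intro i _ hi
      rw [if_neg]
      intro h2
      exact hi (Fin.ext h2.symm)
    · simp
  · rw [dif_neg h]
    rw [Finset.sum_eq_zero, add_zero]
    · split_ifs <;> simp
    · intro i _
      rw [if_neg]
      have := i.2
      omega

/-- the scaled coefficients -/
noncomputable def sc {k : Type} [Field k] (l : k) (a : Fin m → k) : Fin m → k :=
  fun i => l ^ (m - (i : ℕ)) * a i

omit [IsAlgClosed L] in
theorem Ez_sc (l : L) (a : Fin m → L) : Ez (sc l a) = (Ez a).scaleRoots l := by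
  have hm1 : (m : L) + 1 ≠ 0 := by exact_mod_cast Nat.succ_ne_zero m
  ext n
  rw [coeff_scaleRoots, Ez_natDegree a hm1, Ez_coeff, Ez_coeff]
  by_cases h : n < m
  · rw [dif_pos h, dif_pos h]
    simp only [sc]
    ring
  · rw [dif_neg h, dif_neg h]
    by_cases h2 : n = m
    · rw [if_pos h2, h2, Nat.sub_self, pow_zero, mul_one]
    · rw [if_neg h2, zero_mul]

omit [IsAlgClosed L] [CharZero L] in
theorem Gz_sc (l c : L) (a : Fin m → L) :
    (Gz (sc l a)).eval (l * c) = l ^ (m + 1) * (Gz a).eval c := by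
  unfold Gz
  simp only [eval_add, eval_pow, eval_X, eval_finsetSum, eval_mul, eval_C]
  rw [mul_add, Finset.mul_sum, mul_pow]
  congr 1
  refine Finset.sum_congr rfl fun i _ => ?_
  have h1 : m + 1 = (m - (i : ℕ)) + ((i : ℕ) + 1) := by
    have := i.2
    omega
  rw [sc, mul_pow, h1, pow_add]
  ring

theorem dd0_sc (hm : 2 ≤ m) (l : L) (hl : l ≠ 0) (a : Fin m → L) (h : DD0 a ≠ 0) :
    DD0 (sc l a) ≠ 0 := by
  rw [dd0_ne_zero_iff hm] at h ⊢
  rw [Ez_sc, roots_scaleRoots _ hl.isUnit, Multiset.map_map]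
  have h1 : ((fun c => -(Gz (sc l a)).eval c) ∘ fun x => l * x) =
      (fun x => l ^ (m + 1) * x) ∘ fun c => -(Gz a).eval c := by
    funext c
    simp only [Function.comp]
    rw [Gz_sc]
    ring
  rw [h1, ← Multiset.map_map]
  exact h.map (mul_right_injective₀ (pow_ne_zero _ hl))

theorem dd0_e (hm : 2 ≤ m) : DD0 (fun i : Fin m => if (i : ℕ) = 0 then (1 : L) else 0) ≠ 0 := by
  rw [dd0_ne_zero_iff hm]
  have hm1 : (m : L) + 1 ≠ 0 := by exact_mod_cast Nat.succ_ne_zero m
  have hm0 : (m : L) ≠ 0 := by exact_mod_cast (by omega : m ≠ 0)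
  set e : Fin m → L := fun i => if (i : ℕ) = 0 then (1 : L) else 0 with he
  have h0 : (0 : ℕ) < m := by omega
  have hEf : Ez e = C ((m : L) + 1) * X ^ m + 1 := by
    unfold Ez
    rw [Finset.sum_eq_single ⟨0, h0⟩]
    · simp [he]
    · intro i _ hi
      have : (i : ℕ) ≠ 0 := fun h => hi (Fin.ext h)
      simp [he, this]
    · simp
  have hGf : Gz e = X ^ (m + 1) + X := by
    unfold Gz
    rw [Finset.sum_eq_single ⟨0, h0⟩]
    · simp [he]
    · intro i _ hi
      have : (i : ℕ) ≠ 0 := fun h => hi (Fin.ext h)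
      simp [he, this]
    · simp
  have hsep : (Ez e).Separable := by
    rw [hEf]
    have h2 : (C ((m : L) + 1) * X ^ m + 1 : L[X]) =
        C ((m : L) + 1) * (X ^ m - C (-(1 / ((m : L) + 1)))) := by
      rw [mul_sub, ← C_mul, mul_neg, mul_div_cancel₀ _ hm1, C_neg, C_1]
      ring
    rw [h2]
    exact Separable.unit_mul (isUnit_C.2 hm1.isUnit) (separable_X_pow_sub_C _ hm0
      (neg_ne_zero.2 (div_ne_zero one_ne_zero hm1)))
  have hroot : ∀ c ∈ (Ez e).roots, -(Gz e).eval c = -((m : L) / ((m : L) + 1)) * c := by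
    intro c hc
    have h2 := (mem_roots (Ez_ne_zero e)).1 hc
    rw [IsRoot, hEf] at h2
    simp only [eval_add, eval_mul, eval_C, eval_pow, eval_X, eval_one] at h2
    rw [hGf]
    simp only [eval_add, eval_pow, eval_X]
    have h3 : c ^ m = -1 / ((m : L) + 1) := by
      rw [eq_div_iff hm1]
      linear_combination h2
    rw [pow_succ, h3]
    field_simp
    ring
  rw [Multiset.map_congr rfl hroot]
  exact (nodup_roots hsep).map (mul_right_injective₀ (neg_ne_zero.2 (div_ne_zero hm0 hm1)))

/-- for some value of the coefficient of `X` the double discriminant does not vanish -/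
theorem exists_dd0_ne_zero (hm : 2 ≤ m) (a : Fin m → L) (j : Fin m) (hj : (j : ℕ) = 0) :
    ∃ z : L, DD0 (Function.update a j z) ≠ 0 := by
  set Q : L[X] := DD0 (fun i : Fin m => if (i : ℕ) = 0 then (1 : L[X]) else C (a i) * X ^ (m - (i : ℕ)))
    with hQ
  have hev : ∀ s : L, Q.eval s =
      DD0 (fun i : Fin m => if (i : ℕ) = 0 then (1 : L) else a i * s ^ (m - (i : ℕ))) := by
    intro s
    have h1 := DD0_map (evalRingHom s)
      (fun i : Fin m => if (i : ℕ) = 0 then (1 : L[X]) else C (a i) * X ^ (m - (i : ℕ)))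
    rw [← hQ, coe_evalRingHom] at h1
    rw [h1]
    congr 1
    funext i
    split_ifs <;> simp
  have hQ0 : Q ≠ 0 := by
    intro h
    have h1 := hev 0
    rw [h, eval_zero] at h1
    apply dd0_e (L := L) hm
    refine Eq.trans ?_ h1.symm
    congr 1
    funext i
    split_ifs with h2
    · rfl
    · rw [zero_pow (by have := i.2; omega), mul_zero]
  obtain ⟨s, hs⟩ : ∃ s : L, (X * Q).eval s ≠ 0 := by
    by_contra hcon
    push Not at hcon
    have : X * Q = 0 := Polynomial.funext fun r => by rw [hcon r, eval_zero]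
    rcases mul_eq_zero.1 this with h | h
    · exact X_ne_zero h
    · exact hQ0 h
  rw [eval_mul, eval_X] at hs
  have hs0 : s ≠ 0 := left_ne_zero_of_mul hs
  have hsQ : Q.eval s ≠ 0 := right_ne_zero_of_mul hs
  rw [hev] at hsQ
  refine ⟨s⁻¹ ^ m, ?_⟩
  have h1 := dd0_sc hm s⁻¹ (inv_ne_zero hs0) _ hsQ
  have h2 : sc s⁻¹ (fun i : Fin m => if (i : ℕ) = 0 then (1 : L) else a i * s ^ (m - (i : ℕ))) =
      Function.update a j (s⁻¹ ^ m) := by
    funext i
    show s⁻¹ ^ (m - (i : ℕ)) * (if (i : ℕ) = 0 then (1 : L) else a i * s ^ (m - (i : ℕ))) = _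
    by_cases hi : (i : ℕ) = 0
    · have hij : i = j := Fin.ext (hi.trans hj.symm)
      rw [if_pos hi, hij, Function.update_self, hj, Nat.sub_zero, mul_one]
    · have hij : i ≠ j := fun h => hi (by rw [h, hj])
      rw [if_neg hi, Function.update_of_ne hij, inv_pow]
      field_simp
  rwa [h2] at h1

end closed

/-- D0N -/
theorem d0n : T_D0N := by
  intro m hm
  set P : MvPolynomial (Fin m) ℤ := DD0 (fun i => MvPolynomial.X i) with hP
  refine ⟨P.totalDegree, fun j hj a => ?_⟩
  set Pa : ℤ[X] := DD0 (Function.update (fun i => C (a i)) j X) with hPa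
  have hev : ∀ t : ℤ, Pa.eval t = DD0 (Function.update a j t) := by
    intro t
    have h1 := DD0_map (evalRingHom t) (Function.update (fun i => (C (a i) : ℤ[X])) j X)
    rw [← hPa, coe_evalRingHom] at h1
    rw [h1]
    congr 1
    funext i
    by_cases hi : i = j
    · subst hi
      simp
    · simp [Function.update_of_ne hi]
  have hPa0 : Pa ≠ 0 := by
    intro h
    obtain ⟨z, hz⟩ := exists_dd0_ne_zero (L := ℂ) hm (fun i => (a i : ℂ)) j hj
    have h1 := DD0_map (eval₂RingHom (Int.castRingHom ℂ) z) (Function.update (fun i => (C (a i) : ℤ[X])) j X)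
    rw [← hPa, h, map_zero] at h1
    apply hz
    rw [h1]
    congr 1
    funext i
    by_cases hi : i = j
    · subst hi
      simp
    · simp [Function.update_of_ne hi]
  have hdeg : Pa.natDegree ≤ P.totalDegree := by
    have h1 : Pa = MvPolynomial.aeval (Function.update (fun i => (C (a i) : ℤ[X])) j X) P := by
      have h2 := DD0_map (MvPolynomial.aeval (Function.update (fun i => (C (a i) : ℤ[X])) j X) :
        MvPolynomial (Fin m) ℤ →ₐ[ℤ] ℤ[X]).toRingHom (fun i => MvPolynomial.X i)
      rw [← hP] at h2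
      rw [hPa]
      refine Eq.trans ?_ h2.symm
      congr 1
      funext i
      exact (MvPolynomial.aeval_X _ i).symm
    rw [h1]
    have h3 := MvPolynomial.aeval_natDegree_le (n := 1) P le_rfl
      (Function.update (fun i => (C (a i) : ℤ[X])) j X) (fun i => by
        by_cases hi : i = j
        · subst hi
          rw [Function.update_self]
          exact natDegree_X_le
        · rw [Function.update_of_ne hi, natDegree_C]
          omega)
    rwa [mul_one] at h3
  have hset : {t : ℤ | DD0 (Function.update a j t) = 0} = ((Pa.roots.toFinset : Finset ℤ) : Set ℤ) := by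
    ext t
    rw [Set.mem_ofPred_eq, Finset.mem_coe, Multiset.mem_toFinset, mem_roots hPa0, IsRoot, hev]
  rw [hset]
  refine ⟨Finset.finite_toSet _, ?_⟩
  rw [Set.ncard_coe_finset]
  exact ((Multiset.toFinset_card_le _).trans (card_roots' _)).trans hdeg

/-- DD0 without hypotheses -/
theorem dd0' : T_DD0 := dd0 d0n

end Pool.Agent.H65.GF
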