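import Pool.Agent.H65.GF.R0

/-!
# MP_cd65c5_nt, module DDN: the double discriminant of the slice at the origin
-/

set_option autoImplicit false

namespace Pool.Agent.H65.GF

open Pool.Agent.H7.GF Polynomial

/-- separability of the resultant in the parameter -/
theorem separable_param_iff {L : Type} [Field L] (E G0 U : L[X]) (N : ℕ) (hE : E ≠ 0)
    (hsplit : E.Splits) (hN : (G0.map C + C X * U.map C : L[X][X]).natDegree ≤ N)
    (hU : ∀ c ∈ E.roots, U.eval c ≠ 0) :
    (resultant (E.map C) (G0.map C + C X * U.map C : L[X][X]) E.natDegree N).Separable ↔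
      (E.roots.map fun c => -(G0.eval c) / U.eval c).Nodup := by
  classical
  rw [resultant_param E G0 U N hsplit hN]
  set s : Multiset L := E.roots.map fun c => -(G0.eval c) / U.eval c with hs
  have h1 : (E.roots.map fun c => C (G0.eval c) + X * C (U.eval c)).prod =
      C ((E.roots.map fun c => U.eval c).prod) * (s.map fun a => X - C a).prod := by
    rw [hs, Multiset.map_map, map_multiset_prod, Multiset.map_map, ← Multiset.prod_map_mul]
    congr 1
    refine Multiset.map_congr rfl fun c hc => ?_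
    have h2 := hU c hc
    show _ = C (U.eval c) * (X - C (-(G0.eval c) / U.eval c))
    have h3 : C (U.eval c) * C (-(G0.eval c) / U.eval c) = -C (G0.eval c) := by
      rw [← C_mul, mul_div_cancel₀ _ h2, C_neg]
    rw [mul_sub, h3]
    ring
  have h4 : (E.roots.map fun c => U.eval c).prod ≠ 0 := by
    rw [Ne, Multiset.prod_eq_zero_iff]
    intro h
    obtain ⟨c, hc, hc0⟩ := Multiset.mem_map.1 h
    exact hU c hc hc0
  rw [h1, ← mul_assoc, ← C_mul]
  have h5 : IsUnit (C (E.leadingCoeff ^ N * (E.roots.map fun c => U.eval c).prod) : L[X]) :=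
    isUnit_C.2 (mul_ne_zero (pow_ne_zero _ (leadingCoeff_ne_zero.2 hE)) h4).isUnit
  rw [(associated_unit_mul_left _ _ h5).separable_iff]
  have h6 : (s.map fun a => X - C a).prod ≠ 0 := by
    rw [Ne, Multiset.prod_eq_zero_iff]
    intro h
    obtain ⟨c, -, hc0⟩ := Multiset.mem_map.1 h
    exact X_sub_C_ne_zero c hc0
  have h7 : (s.map fun a => X - C a).prod.Splits := by
    refine Splits.multisetProd fun f hf => ?_
    obtain ⟨c, -, rfl⟩ := Multiset.mem_map.1 hf
    exact Splits.X_sub_C c
  rw [← nodup_roots_iff_of_splits h6 h7, roots_multiset_prod_X_sub_C]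

/-- discriminant and separability in characteristic zero -/
theorem resultant_derivative_ne_zero {L : Type} [Field L] [CharZero L] (R : L[X]) (N : ℕ)
    (hN : R.natDegree = N + 1) : resultant R (derivative R) (N + 1) N ≠ 0 ↔ R.Separable := by
  have h1 : (derivative R).natDegree = N := by
    rw [natDegree_derivative, hN, Nat.add_sub_cancel]
  have h2 : resultant R (derivative R) (N + 1) N = resultant R (derivative R) := by
    rw [hN, h1]
  rw [h2, Ne, resultant_eq_zero_iff]
  have h3 : R ≠ 0 := by
    rintro rfl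
    rw [natDegree_zero] at hN
    omega
  simp only [h3, ne_eq, not_false_eq_true, true_or, true_and, not_not]
  rfl

theorem DDs_map {A B : Type} [CommRing A] [CommRing B] {m : ℕ} (φ : A →+* B) (b : A) (a : Fin m → A) :
    φ (DDs b a) = DDs (φ b) (fun i => φ (a i)) := by
  unfold DDs
  rw [← resultant_map_map, ← derivative_map, Rs_map]

theorem DD0_map {A B : Type} [CommRing A] [CommRing B] {m : ℕ} (φ : A →+* B) (a : Fin m → A) :
    φ (DD0 a) = DD0 (fun i => φ (a i)) := by
  unfold DD0
  rw [← resultant_map_map, ← derivative_map, R0_map]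

/-- DDN over an algebraically closed field of characteristic zero -/
theorem ddn_closed {L : Type} [Field L] [IsAlgClosed L] [CharZero L] (m : ℕ) (b : L) (hb : b ≠ 0) :
    DDs b (fun _ : Fin m => (0 : L)) ≠ 0 := by
  have hm1 : (m : L) + 1 ≠ 0 := by exact_mod_cast Nat.succ_ne_zero m
  have hdeg := Es_natDegree b (fun _ : Fin m => (0 : L)) hm1
  have hE : Es b (fun _ : Fin m => (0 : L)) ≠ 0 := by
    intro h
    rw [h, natDegree_zero] at hdeg
    omega
  have hEf : Es b (fun _ : Fin m => (0 : L)) = C ((m : L) + 1) * X ^ (m + 2) - C b := by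
    simp [Es]
  have hGf : Gs b (fun _ : Fin m => (0 : L)) = X ^ (m + 2) + C b := by
    simp [Gs]
  have hroot : ∀ c ∈ (Es b (fun _ : Fin m => (0 : L))).roots, ((m : L) + 1) * c ^ (m + 2) = b := by
    intro c hc
    have h2 := (mem_roots hE).1 hc
    rw [IsRoot, hEf] at h2
    simp only [eval_sub, eval_mul, eval_C, eval_pow, eval_X] at h2
    exact sub_eq_zero.1 h2
  have hc0 : ∀ c ∈ (Es b (fun _ : Fin m => (0 : L))).roots, c ≠ 0 := by
    intro c hc h0
    have := hroot c hc
    rw [h0, zero_pow (by omega), mul_zero] at this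
    exact hb this.symm
  have hs : (Es b (fun _ : Fin m => (0 : L))).Splits := IsAlgClosed.splits _
  have hN := Gs_param_natDegree_le b (fun _ : Fin m => (0 : L))
  have hRdeg := (rs_closed m b (fun _ : Fin m => (0 : L)) hb hm1).1
  unfold DDs
  rw [show m + 2 = (m + 1) + 1 from rfl, resultant_derivative_ne_zero _ (m + 1) hRdeg, Rs_eq]
  have h1 := separable_param_iff (Es b (fun _ : Fin m => (0 : L))) (Gs b (fun _ : Fin m => (0 : L))) X
    (m + 2) hE hs hN (fun c hc => by rw [eval_X]; exact hc0 c hc)
  rw [hdeg] at h1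
  rw [h1]
  have hsep : (Es b (fun _ : Fin m => (0 : L))).Separable := by
    rw [hEf]
    have h2 : (C ((m : L) + 1) * X ^ (m + 2) - C b : L[X]) =
        C ((m : L) + 1) * (X ^ (m + 2) - C (b / ((m : L) + 1))) := by
      rw [mul_sub, ← C_mul, mul_div_cancel₀ _ hm1]
    rw [h2]
    refine Separable.unit_mul (isUnit_C.2 hm1.isUnit) ?_
    refine separable_X_pow_sub_C _ ?_ (div_ne_zero hb hm1)
    exact_mod_cast Nat.succ_ne_zero (m + 1)
  refine Multiset.Nodup.map_on ?_ (nodup_roots hsep)
  intro c hc c' hc' h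
  simp only [eval_X, hGf, eval_add, eval_pow, eval_C] at h
  have h3 := hroot c hc
  have h4 := hroot c' hc'
  have h5 : c ^ (m + 2) = b / ((m : L) + 1) := by
    rw [eq_div_iff hm1, mul_comm]; exact h3
  have h6 : c' ^ (m + 2) = b / ((m : L) + 1) := by
    rw [eq_div_iff hm1, mul_comm]; exact h4
  rw [h5, h6] at h
  have h7 : -(b / ((m : L) + 1) + b) ≠ 0 := by
    have h8 : b / ((m : L) + 1) + b = b * ((m : L) + 2) / ((m : L) + 1) := by
      field_simp
      ring
    rw [h8]
    refine neg_ne_zero.2 (div_ne_zero (mul_ne_zero hb ?_) hm1)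
    exact_mod_cast Nat.succ_ne_zero (m + 1)
  rw [div_eq_div_iff (hc0 c hc) (hc0 c' hc')] at h
  exact (mul_left_cancel₀ h7 h).symm

/-- DDN -/
theorem ddn : T_DDN := by
  intro m b _ hb h
  have h1 : Int.castRingHom ℂ (DDs b (fun _ : Fin m => (0 : ℤ))) = 0 := by rw [h, map_zero]
  rw [DDs_map] at h1
  have h2 : (fun _ : Fin m => Int.castRingHom ℂ 0) = fun _ : Fin m => (0 : ℂ) := by
    funext i
    exact map_zero _
  rw [h2] at h1
  exact ddn_closed m (Int.castRingHom ℂ b) (by simpa using hb) h1

end Pool.Agent.H65.GF
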