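import Pool.Agent.H7.GF.Targets2
import Pool.Agent.H7.GF.Basic

/-!
# MP_cd65c5_nt, modules MVG and MVZ: sizes and zeros of integer polynomials on boxes
-/

set_option autoImplicit false

namespace Pool.Agent.H65.GF

open Pool.Agent.H7.GF

/-- MVG -/
theorem mvg : T_MVG := by
  intro m P
  set A : ℕ := ∑ d ∈ P.support, (P.coeff d).natAbs with hA
  refine ⟨A + P.totalDegree, fun H hH a ha => ?_⟩
  rw [mem_box] at ha
  have h1 : |MvPolynomial.eval a P| ≤ ∑ d ∈ P.support, |P.coeff d * ∏ i, a i ^ d i| := by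
    rw [MvPolynomial.eval_eq']
    exact Finset.abs_sum_le_sum_abs _ _
  have hH' : (1 : ℤ) ≤ (H : ℤ) := by exact_mod_cast hH
  have h2 : ∀ d ∈ P.support, |P.coeff d * ∏ i, a i ^ d i| ≤
      ((P.coeff d).natAbs : ℤ) * (H : ℤ) ^ (A + P.totalDegree) := by
    intro d hd
    rw [abs_mul, Finset.abs_prod, Int.natCast_natAbs]
    refine mul_le_mul_of_nonneg_left ?_ (abs_nonneg _)
    calc ∏ i, |a i ^ d i| ≤ ∏ i, (H : ℤ) ^ d i := by
          refine Finset.prod_le_prod (fun i _ => abs_nonneg _) fun i _ => ?_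
          rw [abs_pow]
          exact pow_le_pow_left₀ (abs_nonneg _) (ha i) _
      _ = (H : ℤ) ^ (∑ i, d i) := Finset.prod_pow_eq_pow_sum _ _ _
      _ ≤ (H : ℤ) ^ (A + P.totalDegree) := by
          refine pow_le_pow_right₀ hH' ?_
          have h3 := MvPolynomial.le_totalDegree hd
          rw [Finsupp.sum_fintype _ _ (fun _ => rfl)] at h3
          omega
  have h4 : ∑ d ∈ P.support, ((P.coeff d).natAbs : ℤ) * (H : ℤ) ^ (A + P.totalDegree) =
      (A : ℤ) * (H : ℤ) ^ (A + P.totalDegree) := by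
    rw [← Finset.sum_mul, hA]
    push_cast
    rfl
  calc |MvPolynomial.eval a P| ≤ (A : ℤ) * (H : ℤ) ^ (A + P.totalDegree) := by
        rw [← h4]
        exact h1.trans (Finset.sum_le_sum h2)
    _ ≤ ((A + P.totalDegree : ℕ) : ℤ) * (H : ℤ) ^ (A + P.totalDegree) := by
        refine mul_le_mul_of_nonneg_right ?_ (pow_nonneg (by omega) _)
        push_cast
        have : (0 : ℤ) ≤ (P.totalDegree : ℤ) := Int.natCast_nonneg _
        omega

/-- MVZ -/
theorem mvz : T_MVZ := by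
  intro m P hP
  rcases Nat.eq_zero_or_pos m with rfl | hm
  · refine ⟨1, fun H _ => ?_⟩
    have h1 := cnt_le_card 0 H (fun a => MvPolynomial.eval a P = 0)
    simpa using h1
  · refine ⟨P.totalDegree * 3 ^ (m - 1), fun H hH => ?_⟩
    have h1 := MvPolynomial.schwartz_zippel_totalDegree hP (Finset.Icc (-(H : ℤ)) H)
    have h2 : (Finset.Icc (-(H : ℤ)) H).card = 2 * H + 1 := by
      rw [Int.card_Icc]
      omega
    rw [h2] at h1
    set N := (({f ∈ Fintype.piFinset fun _ => Finset.Icc (-(H : ℤ)) H | MvPolynomial.eval f P = 0} :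
      Finset (Fin m → ℤ))).card with hN
    have h3 : cnt m H (fun a => MvPolynomial.eval a P = 0) = (N : ℝ) := by
      rw [cnt, hN, ← Set.ncard_coe_finset]
      congr 2
      ext a
      simp [box]
    have h4 : (N : ℚ) / ((2 * H + 1 : ℕ) : ℚ) ^ m ≤ (P.totalDegree : ℚ) / ((2 * H + 1 : ℕ) : ℚ) := by
      exact_mod_cast h1
    have hpos' : (0 : ℚ) < ((2 * H + 1 : ℕ) : ℚ) := by positivity
    rw [div_le_div_iff₀ (pow_pos hpos' m) hpos'] at h4
    obtain ⟨n, rfl⟩ : ∃ n, m = n + 1 := ⟨m - 1, by omega⟩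
    rw [pow_succ, ← mul_assoc] at h4
    have h5 : (N : ℚ) ≤ P.totalDegree * ((2 * H + 1 : ℕ) : ℚ) ^ n := le_of_mul_le_mul_right h4 hpos'
    have h5' : N ≤ P.totalDegree * (2 * H + 1) ^ n := by exact_mod_cast h5
    have h6 : (N : ℝ) ≤ P.totalDegree * ((2 * H + 1 : ℕ) : ℝ) ^ n := by exact_mod_cast h5'
    have hpos : (0 : ℝ) < ((2 * H + 1 : ℕ) : ℝ) := by positivity
    rw [h3, Nat.add_sub_cancel, mul_assoc, ← mul_pow]
    refine h6.trans ?_
    refine mul_le_mul_of_nonneg_left (pow_le_pow_left₀ hpos.le ?_ _) (Nat.cast_nonneg _)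
    push_cast
    have : (1 : ℝ) ≤ H := by exact_mod_cast hH
    linarith

end Pool.Agent.H65.GF
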