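import Pool.Agent.H65.GF.DDN
import Pool.Agent.H65.GF.MV

/-!
# MP_cd65c5_nt, modules DDS and DD0: interfaces of the double discriminants
-/

set_option autoImplicit false

namespace Pool.Agent.H65.GF

open Pool.Agent.H7.GF Polynomial

theorem prime_cast_ne_zero {p n : ℕ} (hp : p.Prime) (hn : n < p) (j : ℕ) (h1 : 1 ≤ j) (h2 : j ≤ n) :
    (j : ZMod p) ≠ 0 := by
  have := Fact.mk hp
  rw [Ne, ZMod.natCast_eq_zero_iff]
  intro h
  have := Nat.le_of_dvd (by omega) h
  omega

/-- a double root kills the resultant with the derivative -/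
theorem resultant_eq_zero_of_sq {F : Type} [Field F] (R : F[X]) (N M : ℕ) (t : F) (hN : R.natDegree ≤ N)
    (hM : (derivative R).natDegree ≤ M) (hNM : N ≠ 0 ∨ M ≠ 0) (h : (X - C t) ^ 2 ∣ R) :
    resultant R (derivative R) N M = 0 := by
  obtain ⟨u, v, -, -, huv⟩ := exists_mul_add_mul_eq_C_resultant R (derivative R) hN hM hNM
  obtain ⟨q, hq⟩ := h
  have h1 : R.eval t = 0 := by
    rw [hq]
    simp
  have h2 : (derivative R).eval t = 0 := by
    rw [hq, derivative_mul, derivative_pow]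
    simp
  have h3 := congrArg (eval t) huv
  rw [eval_add, eval_mul, eval_mul, h1, h2, zero_mul, zero_mul, add_zero, eval_C] at h3
  exact h3.symm

theorem cast_eval_toZ (p : ℕ) (f : ℤ[X]) (t : ℤ) :
    ((f.eval t : ℤ) : ZMod p) = (toZ p f).eval (t : ZMod p) := by
  show _ = (f.map (Int.castRingHom (ZMod p))).eval (t : ZMod p)
  rw [eval_intCast_map]
  rfl

/-- DDS -/
theorem dds : T_DDS := by
  intro m b hm hb
  set P : MvPolynomial (Fin m) ℤ := DDs (MvPolynomial.C b) (fun i => MvPolynomial.X i) with hP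
  have hev : ∀ a : Fin m → ℤ, MvPolynomial.eval a P = DDs b a := by
    intro a
    rw [hP, DDs_map]
    simp
  have hP0 : P ≠ 0 := by
    intro h
    have := hev (fun _ => 0)
    rw [h, map_zero] at this
    exact ddn m b hm hb this.symm
  obtain ⟨K1, hK1⟩ := mvz m P hP0
  obtain ⟨K2, hK2⟩ := mvg m P
  have hc : ((⌈K1⌉₊ : ℕ) : ℝ) ≤ ((⌈K1⌉₊ + K2 + (m + 2) : ℕ) : ℝ) := by
    exact_mod_cast (by omega : ⌈K1⌉₊ ≤ ⌈K1⌉₊ + K2 + (m + 2))
  refine ⟨⌈K1⌉₊ + K2 + (m + 2), fun a => DDs b a, fun a => Rs b a, ?_, ?_, ?_, ?_, ?_⟩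
  · intro H hH
    have h1 := hK1 H hH
    simp only [hev] at h1
    refine h1.trans (mul_le_mul_of_nonneg_right ?_ (by positivity))
    exact (Nat.le_ceil K1).trans hc
  · intro H hH a ha
    have h1 := hK2 H hH a ha
    rw [hev] at h1
    have hH' : (1 : ℤ) ≤ H := by exact_mod_cast hH
    refine h1.trans (mul_le_mul (by push_cast; omega) (pow_le_pow_right₀ hH' (by omega))
      (by positivity) (by positivity))
  · intro p hp hpm hpb a
    have := Fact.mk hp
    constructor
    · have h1 := (rs (ZMod p) m (b : ZMod p) 0 (red p a) hm (by rwa [Ne, ZMod.intCast_zmod_eq_zero_iff_dvd])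
        (prime_cast_ne_zero hp hpm)).1
      have h2 : toZ p (Rs b a) = Rs (b : ZMod p) (red p a) := Rs_map _ _ _
      rw [h2]
      intro h0
      rw [h0, natDegree_zero] at h1
      omega
    · have h1 := (rs ℚ m (b : ℚ) 0 (fun i => (a i : ℚ)) hm (by exact_mod_cast hb)
        (fun j hj _ => by exact_mod_cast (by omega : j ≠ 0))).1
      have h2 : (Rs b a).map (Int.castRingHom ℚ) = Rs (b : ℚ) (fun i => (a i : ℚ)) := Rs_map _ _ _
      rw [← h2, natDegree_map_eq_of_injective (Int.castRingHom ℚ).injective_int] at h1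
      refine h1.le.trans ?_
      omega
  · intro p hp hpm hpb t a hIX
    have := Fact.mk hp
    have h1 := (rs (ZMod p) m (b : ZMod p) (t : ZMod p) (red p a) hm
      (by rwa [Ne, ZMod.intCast_zmod_eq_zero_iff_dvd]) (prime_cast_ne_zero hp hpm)).2.1
    have h2 : toZ p (Rs b a) = Rs (b : ZMod p) (red p a) := Rs_map _ _ _
    rw [← ZMod.intCast_zmod_eq_zero_iff_dvd, cast_eval_toZ, h2]
    apply h1
    have h3 : toZ p (pol b (Fin.cons t a : Fin (m + 1) → ℤ)) =
        pol (b : ZMod p) (Fin.cons (t : ZMod p) (red p a) : Fin (m + 1) → ZMod p) := by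
      rw [toZ_pol]
      congr 1
      funext i
      refine Fin.cases ?_ (fun i => ?_) i
      · simp [red]
      · simp [red]
    rw [IX, h3] at hIX
    exact hIX
  · intro p hp hpm hpb t a hIX
    have := Fact.mk hp
    have h1 := rs (ZMod p) m (b : ZMod p) (t : ZMod p) (red p a) hm
      (by rwa [Ne, ZMod.intCast_zmod_eq_zero_iff_dvd]) (prime_cast_ne_zero hp hpm)
    have h3 : toZ p (pol b (Fin.cons t a : Fin (m + 1) → ℤ)) =
        pol (b : ZMod p) (Fin.cons (t : ZMod p) (red p a) : Fin (m + 1) → ZMod p) := by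
      rw [toZ_pol]
      congr 1
      funext i
      refine Fin.cases ?_ (fun i => ?_) i
      · simp [red]
      · simp [red]
    rw [IX, h3] at hIX
    have h4 := h1.2.2 hIX
    rw [← ZMod.intCast_zmod_eq_zero_iff_dvd]
    have h5 : ((DDs b a : ℤ) : ZMod p) = DDs (b : ZMod p) (red p a) :=
      DDs_map (Int.castRingHom (ZMod p)) b a
    rw [h5]
    unfold DDs
    refine resultant_eq_zero_of_sq _ _ _ (t : ZMod p) h1.1.le ?_ (Or.inl (by omega)) h4
    refine (natDegree_derivative_le _).trans ?_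
    rw [h1.1]
    omega

/-- DD0 -/
theorem dd0 (h_D0N : T_D0N) : T_DD0 := by
  intro m hm
  set P : MvPolynomial (Fin m) ℤ := DD0 (fun i => MvPolynomial.X i) with hP
  have hev : ∀ a : Fin m → ℤ, MvPolynomial.eval a P = DD0 a := by
    intro a
    rw [hP, DD0_map]
    simp
  obtain ⟨K1, hK1⟩ := h_D0N m hm
  obtain ⟨K2, hK2⟩ := mvg m P
  refine ⟨K1 + K2 + m, fun a => DD0 a, fun a => R0 a, ?_, ?_, ?_, ?_, ?_⟩
  · intro j hj a
    obtain ⟨h1, h2⟩ := hK1 j hj a
    exact ⟨h1, h2.trans (by omega)⟩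
  · intro H hH a ha
    have h1 := hK2 H hH a ha
    rw [hev] at h1
    have hH' : (1 : ℤ) ≤ H := by exact_mod_cast hH
    refine h1.trans (mul_le_mul (by push_cast; omega) (pow_le_pow_right₀ hH' (by omega))
      (by positivity) (by positivity))
  · intro p hp hpm a
    have := Fact.mk hp
    constructor
    · have h1 := (r0 (ZMod p) m 0 (red p a) hm (prime_cast_ne_zero hp hpm)).1
      have h2 : toZ p (R0 a) = R0 (red p a) := R0_map _ _
      rw [h2]
      intro h0
      rw [h0, natDegree_zero] at h1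
      omega
    · have h1 := (r0 ℚ m 0 (fun i => (a i : ℚ)) hm
        (fun j hj _ => by exact_mod_cast (by omega : j ≠ 0))).1
      have h2 : (R0 a).map (Int.castRingHom ℚ) = R0 (fun i => (a i : ℚ)) := R0_map _ _
      rw [← h2, natDegree_map_eq_of_injective (Int.castRingHom ℚ).injective_int] at h1
      refine h1.le.trans ?_
      omega
  · intro p hp hpm t a hIX
    have := Fact.mk hp
    have h1 := (r0 (ZMod p) m (t : ZMod p) (red p a) hm (prime_cast_ne_zero hp hpm)).2.1
    have h2 : toZ p (R0 a) = R0 (red p a) := R0_map _ _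
    rw [← ZMod.intCast_zmod_eq_zero_iff_dvd, cast_eval_toZ, h2]
    apply h1
    rw [IX, toZ_pol] at hIX
    exact hIX
  · intro p hp hpm t a hIX
    have := Fact.mk hp
    have h1 := r0 (ZMod p) m (t : ZMod p) (red p a) hm (prime_cast_ne_zero hp hpm)
    rw [IX, toZ_pol] at hIX
    have h4 := h1.2.2 hIX
    rw [← ZMod.intCast_zmod_eq_zero_iff_dvd]
    have h5 : ((DD0 a : ℤ) : ZMod p) = DD0 (red p a) := DD0_map (Int.castRingHom (ZMod p)) a
    rw [h5]
    unfold DD0
    refine resultant_eq_zero_of_sq _ _ _ (t : ZMod p) h1.1.le ?_ (Or.inl (by omega)) h4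
    refine (natDegree_derivative_le _).trans ?_
    rw [h1.1]

end Pool.Agent.H65.GF
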