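import Pool.Agent.H65.GF.RS

/-!
# MP_cd65c5_nt, module R0
-/

set_option autoImplicit false

namespace Pool.Agent.H65.GF

open Pool.Agent.H7.GF Polynomial

/-- the derivative of `f` -/
noncomputable def Ez {A : Type} [CommRing A] {m : ℕ} (a : Fin m → A) : A[X] :=
  C ((m : A) + 1) * X ^ m + ∑ i : Fin m, C (((i : ℕ) : A) + 1) * C (a i) * X ^ (i : ℕ)

/-- the polynomial `f` without its constant term -/
noncomputable def Gz {A : Type} [CommRing A] {m : ℕ} (a : Fin m → A) : A[X] :=
  X ^ (m + 1) + ∑ i : Fin m, C (a i) * X ^ ((i : ℕ) + 1)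

theorem R0_eq {A : Type} [CommRing A] {m : ℕ} (a : Fin m → A) :
    R0 a = resultant ((Ez a).map C) ((Gz a).map C + C X * (1 : A[X]).map C : A[X][X]) m (m + 1) := by
  unfold R0 Ez Gz
  congr 1
  simp only [Polynomial.map_add, Polynomial.map_pow, Polynomial.map_X, Polynomial.map_sum,
    Polynomial.map_mul, Polynomial.map_C, Polynomial.map_one, mul_one]

theorem R0_map {A B : Type} [CommRing A] [CommRing B] {m : ℕ} (φ : A →+* B) (a : Fin m → A) :
    (R0 a).map φ = R0 (fun i => φ (a i)) := by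
  have h : (R0 a).map φ = mapRingHom φ (R0 a) := rfl
  rw [h]
  unfold R0
  rw [← resultant_map_map]
  congr 1
  · simp [Polynomial.map_sum]
  · simp [Polynomial.map_sum]

theorem Ez_natDegree {k : Type} [Field k] {m : ℕ} (a : Fin m → k) (h : (m : k) + 1 ≠ 0) :
    (Ez a).natDegree = m := by
  rcases Nat.eq_zero_or_pos m with rfl | hm
  · simp [Ez]
  have h1 : (C ((m : k) + 1) * X ^ m : k[X]).natDegree = m := natDegree_C_mul_X_pow _ _ h
  have h2 : (∑ i : Fin m, C (((i : ℕ) : k) + 1) * C (a i) * X ^ (i : ℕ) : k[X]).natDegree < m := by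
    refine lt_of_le_of_lt (natDegree_sum_le_of_forall_le (n := m - 1) _ _ fun i _ => ?_) (by omega)
    rw [← C_mul]
    refine (natDegree_C_mul_X_pow_le _ _).trans ?_
    have := i.2
    omega
  rw [Ez, natDegree_add_eq_left_of_natDegree_lt (by rw [h1]; exact h2), h1]

theorem Gz_natDegree_le {A : Type} [CommRing A] {m : ℕ} (a : Fin m → A) :
    (Gz a).natDegree ≤ m + 1 := by
  unfold Gz
  refine natDegree_add_le_of_degree_le (natDegree_X_pow_le _) ?_
  refine natDegree_sum_le_of_forall_le _ _ fun i _ => ?_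
  refine (natDegree_C_mul_X_pow_le _ _).trans ?_
  have := i.2
  omega

theorem Gz_param_natDegree_le {A : Type} [CommRing A] {m : ℕ} (a : Fin m → A) :
    ((Gz a).map C + C X * (1 : A[X]).map C : A[X][X]).natDegree ≤ m + 1 := by
  refine natDegree_add_le_of_degree_le (natDegree_map_le.trans (Gz_natDegree_le a)) ?_
  rw [Polynomial.map_one, mul_one, natDegree_C]
  omega

theorem pol_eq_Gz {A : Type} [CommRing A] {m : ℕ} (t : A) (a : Fin m → A) :
    pol t a = Gz a + C t * 1 := by
  rw [mul_one]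
  rfl

theorem Ez_eq {A : Type} [CommRing A] {m : ℕ} (t : A) (a : Fin m → A) :
    Ez a = derivative (pol t a) := by
  unfold pol Ez
  simp only [derivative_add, derivative_X_pow, derivative_sum, derivative_C_mul, derivative_C,
    add_zero, Nat.cast_add, Nat.cast_one, Nat.add_sub_cancel]
  congr 1
  refine Finset.sum_congr rfl fun i _ => ?_
  ring

theorem r0_closed {L : Type} [Field L] [IsAlgClosed L] (m : ℕ) (a : Fin m → L)
    (hj : (m : L) + 1 ≠ 0) : (R0 a).natDegree = m ∧
    ∀ (k : ℕ) (t : L), IXp k (pol t a) → (X - C t) ^ k ∣ R0 a := by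
  have hdeg := Ez_natDegree a hj
  have hE : Ez a ≠ 0 := by
    intro h
    have h1 : (Ez a).coeff m = (m : L) + 1 := by
      unfold Ez
      rw [coeff_add, coeff_C_mul, coeff_X_pow, if_pos rfl, mul_one, finsetSum_coeff,
        Finset.sum_eq_zero, add_zero]
      intro i _
      rw [← C_mul, coeff_C_mul, coeff_X_pow, if_neg (by have := i.2; omega), mul_zero]
    rw [h, coeff_zero] at h1
    exact hj h1.symm
  have hs : (Ez a).Splits := IsAlgClosed.splits _
  have hN := Gz_param_natDegree_le a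
  rw [R0_eq]
  constructor
  · have h1 := natDegree_resultant_param (Ez a) (Gz a) 1 (m + 1) hE hs hN ?_
    · rwa [hdeg] at h1
    · intro c _
      rw [eval_one]
      exact one_ne_zero
  · rintro k t ⟨g, -, hk, hgf, hgf'⟩
    have h1 := pow_dvd_resultant_param (Ez a) (Gz a) 1 g (m + 1) k t hE hs hN ?_ ?_ hk
    · rwa [hdeg] at h1
    · rw [Ez_eq t a]
      exact hgf'
    · rwa [← pol_eq_Gz]

/-- R0 -/
theorem r0 : T_R0 := by
  intro k _ m t a hm hj
  let φ := algebraMap k (AlgebraicClosure k)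
  have hφ : Function.Injective φ := φ.injective
  have h1 : (m : AlgebraicClosure k) + 1 ≠ 0 := by
    have h2 := hj (m + 1) (by omega) (by omega)
    intro h3
    apply h2
    apply hφ
    rw [map_natCast, map_zero]
    push_cast
    exact h3
  obtain ⟨h2, h3⟩ := r0_closed m (fun i => φ (a i)) h1
  rw [← R0_map] at h2 h3
  have h4 : ∀ l : ℕ, IXp l (pol t a) → (X - C t) ^ l ∣ R0 a := by
    intro l hl
    have h5 := IXp_map φ hl
    rw [pol_map] at h5
    have h7 := h3 l (φ t) h5
    rw [← map_dvd_map' φ]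
    simpa using h7
  refine ⟨?_, fun h => ?_, fun h => h4 2 h⟩
  · rwa [natDegree_map_eq_of_injective hφ] at h2
  · have h5 := h4 1 h
    rw [pow_one, dvd_iff_isRoot] at h5
    exact h5

end Pool.Agent.H65.GF
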