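import Pool.Agent.H65.GF.Res

/-!
# MP_cd65c5_nt, modules RS and R0
-/

set_option autoImplicit false

namespace Pool.Agent.H65.GF

open Pool.Agent.H7.GF Polynomial

/-- index conditions and field extensions -/
theorem IXp_map {k : ℕ} {F F' : Type} [Field F] [Field F'] (φ : F →+* F') {f : F[X]} (h : IXp k f) :
    IXp k (f.map φ) := by
  obtain ⟨g, h1, h2, h3, h4⟩ := h
  refine ⟨g.map φ, h1.map φ, ?_, map_dvd φ h3, ?_⟩
  · rwa [h1.natDegree_map φ]
  · rw [derivative_map]
    exact map_dvd φ h4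

section Rs

/-- the polynomial `X f' - f` -/
noncomputable def Es {A : Type} [CommRing A] {m : ℕ} (b : A) (a : Fin m → A) : A[X] :=
  C ((m : A) + 1) * X ^ (m + 2) + ∑ i : Fin m, C (((i : ℕ) : A) + 1) * C (a i) * X ^ ((i : ℕ) + 2) - C b

/-- the polynomial `f` without its linear term -/
noncomputable def Gs {A : Type} [CommRing A] {m : ℕ} (b : A) (a : Fin m → A) : A[X] :=
  X ^ (m + 2) + ∑ i : Fin m, C (a i) * X ^ ((i : ℕ) + 2) + C b

theorem Rs_eq {A : Type} [CommRing A] {m : ℕ} (b : A) (a : Fin m → A) :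
    Rs b a = resultant ((Es b a).map C) ((Gs b a).map C + C X * (X : A[X]).map C : A[X][X]) (m + 2) (m + 2) := by
  unfold Rs Es Gs
  congr 1
  simp only [Polynomial.map_add, Polynomial.map_pow, Polynomial.map_X, Polynomial.map_sum,
    Polynomial.map_mul, Polynomial.map_C]
  ring

theorem Rs_map {A B : Type} [CommRing A] [CommRing B] {m : ℕ} (φ : A →+* B) (b : A) (a : Fin m → A) :
    (Rs b a).map φ = Rs (φ b) (fun i => φ (a i)) := by
  have h : (Rs b a).map φ = mapRingHom φ (Rs b a) := rfl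
  rw [h]
  unfold Rs
  rw [← resultant_map_map]
  congr 1
  · simp [Polynomial.map_sum]
  · simp [Polynomial.map_sum]

theorem Es_natDegree {k : Type} [Field k] {m : ℕ} (b : k) (a : Fin m → k) (h : (m : k) + 1 ≠ 0) :
    (Es b a).natDegree = m + 2 := by
  have h1 : (C ((m : k) + 1) * X ^ (m + 2) : k[X]).natDegree = m + 2 := natDegree_C_mul_X_pow _ _ h
  have h2 : (∑ i : Fin m, C (((i : ℕ) : k) + 1) * C (a i) * X ^ ((i : ℕ) + 2) - C b : k[X]).natDegree <
      m + 2 := by
    refine lt_of_le_of_lt (natDegree_sub_le _ _) (max_lt ?_ (by rw [natDegree_C]; omega))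
    refine Nat.lt_succ_iff.2 (natDegree_sum_le_of_forall_le _ _ fun i _ => ?_)
    rw [← C_mul]
    refine (natDegree_C_mul_X_pow_le _ _).trans ?_
    have := i.2
    omega
  rw [Es, add_sub_assoc, natDegree_add_eq_left_of_natDegree_lt (by rw [h1]; exact h2), h1]

theorem Gs_natDegree_le {A : Type} [CommRing A] {m : ℕ} (b : A) (a : Fin m → A) :
    (Gs b a).natDegree ≤ m + 2 := by
  unfold Gs
  refine natDegree_add_le_of_degree_le (natDegree_add_le_of_degree_le (natDegree_X_pow_le _) ?_)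
    (by rw [natDegree_C]; omega)
  refine natDegree_sum_le_of_forall_le _ _ fun i _ => ?_
  refine (natDegree_C_mul_X_pow_le _ _).trans ?_
  have := i.2
  omega

theorem Gs_param_natDegree_le {A : Type} [CommRing A] {m : ℕ} (b : A) (a : Fin m → A) :
    ((Gs b a).map C + C X * (X : A[X]).map C : A[X][X]).natDegree ≤ m + 2 := by
  refine natDegree_add_le_of_degree_le (natDegree_map_le.trans (Gs_natDegree_le b a)) ?_
  rw [Polynomial.map_X]
  exact ((natDegree_C_mul_le _ _).trans natDegree_X_le).trans (by omega)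

theorem pol_cons {A : Type} [CommRing A] {m : ℕ} (b t : A) (a : Fin m → A) :
    pol b (Fin.cons t a : Fin (m + 1) → A) = Gs b a + C t * X := by
  unfold pol Gs
  rw [Fin.sum_univ_succ]
  simp only [Fin.cons_zero, Fin.cons_succ, Fin.val_zero, Fin.val_succ, zero_add, pow_one]
  have h1 : ∀ i : Fin m, (C (a i) * X ^ ((i : ℕ) + 1 + 1) : A[X]) = C (a i) * X ^ ((i : ℕ) + 2) := fun i => rfl
  simp_rw [h1]
  ring

theorem Es_eq {A : Type} [CommRing A] {m : ℕ} (b t : A) (a : Fin m → A) :
    Es b a = X * derivative (pol b (Fin.cons t a : Fin (m + 1) → A)) -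
      pol b (Fin.cons t a : Fin (m + 1) → A) := by
  rw [pol_cons]
  unfold Es Gs
  simp only [derivative_add, derivative_X_pow, derivative_sum, derivative_C_mul, derivative_C,
    derivative_X, mul_one, add_zero, Nat.cast_add, Nat.cast_ofNat]
  have h1 : ∀ i : Fin m, (C (a i) * (C (((i : ℕ) : A) + 2) * X ^ ((i : ℕ) + 2 - 1)) : A[X]) =
      C (((i : ℕ) : A) + 2) * C (a i) * X ^ ((i : ℕ) + 1) := fun i => by
    have : (i : ℕ) + 2 - 1 = (i : ℕ) + 1 := by omega
    rw [this]
    ring
  simp_rw [h1]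
  have h2 : m + 2 - 1 = m + 1 := by omega
  rw [h2, mul_add, mul_add, Finset.mul_sum]
  have h3 : ∀ i : Fin m, (X * (C (((i : ℕ) : A) + 2) * C (a i) * X ^ ((i : ℕ) + 1)) : A[X]) =
      C (((i : ℕ) : A) + 1) * C (a i) * X ^ ((i : ℕ) + 2) + C (a i) * X ^ ((i : ℕ) + 2) := fun i => by
    simp only [C_add, C_1]
    have h4 : (C (2 : A) : A[X]) = 2 := rfl
    rw [h4]
    ring
  simp_rw [h3, Finset.sum_add_distrib]
  simp only [C_add, C_1]
  have h4 : (C (2 : A) : A[X]) = 2 := rfl
  rw [h4]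
  ring

theorem rs_closed {L : Type} [Field L] [IsAlgClosed L] (m : ℕ) (b : L) (a : Fin m → L)
    (hb : b ≠ 0) (hj : (m : L) + 1 ≠ 0) : (Rs b a).natDegree = m + 2 ∧
    ∀ (k : ℕ) (t : L), IXp k (pol b (Fin.cons t a : Fin (m + 1) → L)) → (X - C t) ^ k ∣ Rs b a := by
  have hdeg := Es_natDegree b a hj
  have hE : Es b a ≠ 0 := by
    intro h
    rw [h, natDegree_zero] at hdeg
    omega
  have hs : (Es b a).Splits := IsAlgClosed.splits _
  have hN := Gs_param_natDegree_le b a
  rw [Rs_eq]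
  constructor
  · have h1 := natDegree_resultant_param (Es b a) (Gs b a) X (m + 2) hE hs hN ?_
    · rwa [hdeg] at h1
    · intro c hc h0
      rw [eval_X] at h0
      subst h0
      have h2 := (mem_roots hE).1 hc
      rw [IsRoot, ← coeff_zero_eq_eval_zero] at h2
      apply hb
      have h3 : (Es b a).coeff 0 = -b := by
        simp [Es, coeff_X_pow]
      rw [h3, neg_eq_zero] at h2
      exact h2
  · rintro k t ⟨g, -, hk, hgf, hgf'⟩
    have h1 := pow_dvd_resultant_param (Es b a) (Gs b a) X g (m + 2) k t hE hs hN ?_ ?_ hk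
    · rwa [hdeg] at h1
    · rw [Es_eq b t a]
      exact dvd_sub (Dvd.dvd.mul_left hgf' _) hgf
    · rwa [← pol_cons]

/-- RS -/
theorem rs : T_RS := by
  intro k _ m b t a hm hb hj
  let φ := algebraMap k (AlgebraicClosure k)
  have hφ : Function.Injective φ := φ.injective
  have h1 : (m : AlgebraicClosure k) + 1 ≠ 0 := by
    have h2 := hj (m + 1) (by omega) (by omega)
    intro h3
    apply h2
    apply hφ
    rw [map_natCast, map_zero]
    push_cast
    exact h3
  obtain ⟨h2, h3⟩ := rs_closed m (φ b) (fun i => φ (a i)) (by simpa using hb) h1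
  rw [← Rs_map] at h2 h3
  have h4 : ∀ l : ℕ, IXp l (pol b (Fin.cons t a : Fin (m + 1) → k)) → (X - C t) ^ l ∣ Rs b a := by
    intro l hl
    have h5 := IXp_map φ hl
    rw [pol_map] at h5
    have h6 : (fun i => φ ((Fin.cons t a : Fin (m + 1) → k) i)) =
        (Fin.cons (φ t) (fun i => φ (a i)) : Fin (m + 1) → AlgebraicClosure k) := by
      funext i
      refine Fin.cases ?_ (fun i => ?_) i
      · simp
      · simp
    rw [h6] at h5
    have h7 := h3 l (φ t) h5
    rw [← map_dvd_map' φ]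
    simpa using h7
  refine ⟨?_, fun h => ?_, fun h => h4 2 h⟩
  · rwa [natDegree_map_eq_of_injective hφ] at h2
  · have h5 := h4 1 h
    rw [pow_one, dvd_iff_isRoot] at h5
    exact h5

end Rs

end Pool.Agent.H65.GF
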