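import Pool.Agent.H7.GF.Targets2
import Pool.Agent.H7.GF.Basic

/-!
# MP_cd65c5_nt, modules RS, R0, DDN: resultants in one parameter
-/

set_option autoImplicit false

namespace Pool.Agent.H65.GF

open Pool.Agent.H7.GF Polynomial

section core

variable {L : Type} [Field L]

/-- resultant of `E` and `G₀ + T U`, where `T` is a parameter -/
theorem resultant_param (E G0 U : L[X]) (N : ℕ) (hsplit : E.Splits)
    (hN : (G0.map C + C X * U.map C : L[X][X]).natDegree ≤ N) :
    resultant (E.map C) (G0.map C + C X * U.map C : L[X][X]) E.natDegree N =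
      C (E.leadingCoeff ^ N) * (E.roots.map fun c => C (G0.eval c) + X * C (U.eval c)).prod := by
  have hinj : Function.Injective (C : L →+* L[X]) := C_injective
  have h1 := resultant_eq_prod_eval (E.map C) (G0.map C + C X * U.map C : L[X][X]) N hN
    (hsplit.map _)
  rw [natDegree_map_eq_of_injective hinj, leadingCoeff_map_of_injective hinj] at h1
  rw [h1, ← C_pow]
  congr 1
  have h2 : (E.map C).roots = E.roots.map (C : L →+* L[X]) :=
    (roots_map_of_injective_of_card_eq_natDegree hinj hsplit.natDegree_eq_card_roots.symm).symm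
  rw [h2, Multiset.map_map]
  congr 1
  refine Multiset.map_congr rfl fun c _ => ?_
  show (G0.map C + C X * U.map C : L[X][X]).eval (C c) = _
  rw [eval_add, eval_mul, eval_C]
  have h3 : ∀ q : L[X], (q.map C : L[X][X]).eval (C c) = C (q.eval c) := by
    intro q
    rw [eval_map, ← eval₂_at_apply]
  rw [h3, h3]

theorem factor_natDegree (u v : L) (hv : v ≠ 0) : (C u + X * C v : L[X]).natDegree = 1 := by
  rw [mul_comm, add_comm]
  exact natDegree_linear hv

/-- the degree of the resultant in the parameter -/
theorem natDegree_resultant_param (E G0 U : L[X]) (N : ℕ) (hE : E ≠ 0) (hsplit : E.Splits)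
    (hN : (G0.map C + C X * U.map C : L[X][X]).natDegree ≤ N) (hU : ∀ c ∈ E.roots, U.eval c ≠ 0) :
    (resultant (E.map C) (G0.map C + C X * U.map C : L[X][X]) E.natDegree N).natDegree =
      E.natDegree := by
  rw [resultant_param E G0 U N hsplit hN, natDegree_C_mul (pow_ne_zero _ (leadingCoeff_ne_zero.2 hE)),
    natDegree_multiset_prod]
  · rw [Multiset.map_map]
    have h1 : E.roots.map (natDegree ∘ fun c => C (G0.eval c) + X * C (U.eval c)) =
        E.roots.map fun _ => 1 := by
      refine Multiset.map_congr rfl fun c hc => ?_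
      exact factor_natDegree _ _ (hU c hc)
    rw [h1, Multiset.map_const', Multiset.sum_replicate, smul_eq_mul, mul_one,
      hsplit.natDegree_eq_card_roots]
  · intro h0
    obtain ⟨c, hc, hc0⟩ := Multiset.mem_map.1 h0
    have := factor_natDegree (G0.eval c) _ (hU c hc)
    rw [hc0, natDegree_zero] at this
    exact zero_ne_one this

/-- many common roots give a high power of the parameter -/
theorem pow_dvd_resultant_param (E G0 U g : L[X]) (N k : ℕ) (t : L) (hE : E ≠ 0) (hsplit : E.Splits)
    (hN : (G0.map C + C X * U.map C : L[X][X]).natDegree ≤ N) (hgE : g ∣ E)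
    (hgf : g ∣ G0 + C t * U) (hk : k ≤ g.natDegree) :
    (X - C t) ^ k ∣ resultant (E.map C) (G0.map C + C X * U.map C : L[X][X]) E.natDegree N := by
  rw [resultant_param E G0 U N hsplit hN]
  refine Dvd.dvd.mul_left ?_ _
  have hg0 : g ≠ 0 := fun h => hE (by rw [h] at hgE; exact zero_dvd_iff.1 hgE)
  have hgs : g.Splits := hsplit.of_dvd hE hgE
  have h1 : g.roots ≤ E.roots := roots.le_of_dvd hE hgE
  refine dvd_trans ?_ (Multiset.prod_dvd_prod_of_le (Multiset.map_le_map h1))
  have h2 : ∀ c ∈ g.roots, C (G0.eval c) + X * C (U.eval c) = C (U.eval c) * (X - C t) := by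
    intro c hc
    have h3 : (G0 + C t * U).eval c = 0 := by
      obtain ⟨q, hq⟩ := hgf
      rw [hq, eval_mul, (mem_roots hg0).1 hc, zero_mul]
    rw [eval_add, eval_mul, eval_C] at h3
    have h4 : G0.eval c = -(t * U.eval c) := by linear_combination h3
    rw [h4, C_neg, C_mul]
    ring
  rw [Multiset.map_congr rfl h2, Multiset.prod_map_mul, Multiset.map_const', Multiset.prod_replicate,
    ← hgs.natDegree_eq_card_roots]
  exact Dvd.dvd.mul_left (pow_dvd_pow _ hk) _

end core

end Pool.Agent.H65.GF
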